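import Pool.Agent.Helper23_Refl.StmtC2

/-!
# RDES: reading the roots in the coordinates of the final basis
-/

namespace Pool.Agent.Refl.H58

open Matrix

theorem fc_eq {α : Type} (n : ℕ) (f : ℕ → α) : K.fc n f = f n := by
  cases n <;> rfl

theorem ands_eq (a b : Bool) : K.ands a b = (a && b) := by
  cases a <;> rfl

theorem sg_eq (t x : ℕ) : K.sg t x = (x : ℤ) - t := by
  unfold K.sg
  exact Int.subNatNat_eq_coe

theorem rd4_ex (w s : ℕ) : ∃ z0 z1 z2 z3 s' : ℕ,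
    z0 < 2 ^ w ∧ z1 < 2 ^ w ∧ z2 < 2 ^ w ∧ z3 < 2 ^ w ∧
    ∀ f : ℕ → ℕ → ℕ → ℕ → ℕ → ℕ, K.rd4 w s f = f z0 z1 z2 z3 s' := by
  have hW : 0 < 2 ^ w := by positivity
  refine ⟨(s % (2 ^ w) ^ 4) % 2 ^ w, ((s % (2 ^ w) ^ 4) / 2 ^ w) % 2 ^ w,
    ((s % (2 ^ w) ^ 4) / (2 ^ w) ^ 2) % 2 ^ w, (s % (2 ^ w) ^ 4) / (2 ^ w) ^ 3, s / (2 ^ w) ^ 4,
    Nat.mod_lt _ hW, Nat.mod_lt _ hW, Nat.mod_lt _ hW, ?_, fun f => ?_⟩
  · rw [Nat.div_lt_iff_lt_mul (by positivity)]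
    calc _ < (2 ^ w) ^ 4 := Nat.mod_lt _ (by positivity)
      _ = 2 ^ w * (2 ^ w) ^ 3 := by ring
  · unfold K.rd4
    simp only [fc_eq]
    rfl

theorem bool_rec_ne {b : Bool} {x : ℕ} (h : (Bool.rec 0 x b : ℕ) ≠ 0) : b = true ∧ x ≠ 0 := by
  cases b
  · exact absurd rfl h
  · exact ⟨rfl, h⟩

/-- injectivity of `F` -/
theorem inj_of_det {F : M4} (hF : F.det ≠ 0) {x y : Z4} (h : F.mulVec x = F.mulVec y) : x = y := by
  have h0 : F.mulVec (x - y) = 0 := by rw [Matrix.mulVec_sub, h, sub_self]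
  by_contra hne
  exact hF (Matrix.exists_mulVec_eq_zero_iff.mp ⟨x - y, sub_ne_zero.mpr hne, h0⟩)

theorem om_eq {C : K.Ctx} {D0 : ℕ} (hC : CtxB C D0) (v : Z4) :
    ∑ j : Fin 4, (v j + (1 : ℕ) * C.Q) * (C.B : ℤ) ^ (j : ℕ) =
      ∑ j : Fin 4, v j * (C.B : ℤ) ^ (j : ℕ) + C.Om := by
  rw [hC.Om, hC.B3, hC.B2]
  simp only [Fin.sum_univ_four]
  simp only [Fin.val_zero, Fin.val_one, Fin.val_two, show ((3 : Fin 4) : ℕ) = 3 from rfl]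
  push_cast
  ring

theorem mulVec_bound {N : M4} (hb : ∀ i j, |N i j| ≤ 2 ^ 31) {z : Z4} (hz : ∀ j, |z j| ≤ 2 ^ 32)
    (j : Fin 4) : |N.mulVec z j| ≤ 2 ^ 65 := by
  have h1 : ∀ i, |N j i * z i| ≤ 2 ^ 63 := by
    intro i
    rw [abs_mul]
    calc |N j i| * |z i| ≤ 2 ^ 31 * 2 ^ 32 :=
          mul_le_mul (hb _ _) (hz _) (abs_nonneg _) (by positivity)
      _ = 2 ^ 63 := by norm_num
  have h2 : N.mulVec z j = N j 0 * z 0 + N j 1 * z 1 + N j 2 * z 2 + N j 3 * z 3 := by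
    simp only [Matrix.mulVec, dotProduct, Fin.sum_univ_four]
  rw [h2]
  have a0 := abs_le.mp (h1 0)
  have a1 := abs_le.mp (h1 1)
  have a2 := abs_le.mp (h1 2)
  have a3 := abs_le.mp (h1 3)
  rw [abs_le]
  constructor <;> linarith [a0.1, a0.2, a1.1, a1.2, a2.1, a2.2, a3.1, a3.2]

theorem Q_pos {C : K.Ctx} {D0 : ℕ} (hC : CtxB C D0) : 1 ≤ C.Q := by
  rw [hC.Q]
  have := hC.D
  have : 0 < 210 * D0 := by omega
  exact Nat.one_le_iff_ne_zero.mpr (by positivity)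

/-- the coordinates read are those of `v` -/
theorem read_eq (h4 : Pack4Stmt) {C : K.Ctx} {D0 : ℕ} (hC : CtxB C D0) {N : M4}
    {y0 y1 y2 y3 : ℕ} (hN : PkN C y0 y1 y2 y3 N) (hb : ∀ i j, |N i j| ≤ 2 ^ 31) {w : ℕ} (hw : w < 32)
    {z0 z1 z2 z3 : ℕ} (h0 : z0 < 2 ^ w) (h1 : z1 < 2 ^ w) (h2 : z2 < 2 ^ w) (h3 : z3 < 2 ^ w)
    {v : Z4} (hv : ∀ j, |v j| ≤ 2 ^ 100)
    (he : (K.cX C.Om (2 ^ w / 2) z0 z1 z2 z3 y0 y1 y2 y3 : ℤ) -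
      K.cY C.Om (2 ^ w / 2) z0 z1 z2 z3 y0 y1 y2 y3 - C.Om =
      ∑ j : Fin 4, v j * (C.B : ℤ) ^ (j : ℕ)) :
    N.mulVec ![(z0 : ℤ) - (2 ^ w / 2 : ℕ), z1 - (2 ^ w / 2 : ℕ), z2 - (2 ^ w / 2 : ℕ),
      z3 - (2 ^ w / 2 : ℕ)] = v := by
  obtain ⟨hA, hB⟩ := h4 C D0 y0 y1 y2 y3 N hC hN
  rw [hA] at he
  have hQ : (1 : ℤ) ≤ C.Q := by exact_mod_cast Q_pos hC
  have hp : 2 ^ w ≤ 2 ^ 31 := Nat.pow_le_pow_right (by norm_num) (by omega)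
  have ht : 2 ^ w / 2 ≤ 2 ^ 31 := le_trans (Nat.div_le_self _ _) hp
  refine hB _ _ (fun j => ?_) (fun j => ?_) he
  · refine le_trans (mulVec_bound hb (fun k => ?_) j) ?_
    · have key : ∀ z : ℕ, z < 2 ^ w → |(z : ℤ) - (2 ^ w / 2 : ℕ)| ≤ 2 ^ 32 := by
        intro z hz
        have a1 : (z : ℤ) < 2 ^ 31 := by exact_mod_cast lt_of_lt_of_le hz hp
        have a2 : ((2 ^ w / 2 : ℕ) : ℤ) ≤ 2 ^ 31 := by exact_mod_cast ht
        have a3 : (0 : ℤ) ≤ z := by positivity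
        have a4 : (0 : ℤ) ≤ ((2 ^ w / 2 : ℕ) : ℤ) := Int.natCast_nonneg _
        rw [abs_le]
        constructor <;> linarith
      fin_cases k
      · exact key z0 h0
      · exact key z1 h1
      · exact key z2 h2
      · exact key z3 h3
    · linarith [mul_le_mul_of_nonneg_left hQ (show (0 : ℤ) ≤ 2 ^ 100 by positivity)]
  · linarith [hv j, mul_le_mul_of_nonneg_left hQ (show (0 : ℤ) ≤ 2 ^ 100 by positivity)]

theorem inv_of_eq {F : M4} (hF : F.det ≠ 0) {U : M4ˣ} {z x : Z4}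
    (h : (F * (U : M4)).mulVec z = F.mulVec x) : z = ((U⁻¹ : M4ˣ) : M4).mulVec x := by
  rw [← Matrix.mulVec_mulVec] at h
  have h1 := inj_of_det hF h
  rw [← h1, Matrix.mulVec_mulVec, Units.inv_mul, Matrix.one_mulVec]

theorem rdE_ex (h4 : Pack4Stmt) {C : K.Ctx} {D0 : ℕ} (hC : CtxB C D0) {F : M4} {U : M4ˣ}
    (hF : F.det ≠ 0) {y0 y1 y2 y3 ci w s : ℕ} {x : Z4} (hw : w < 32)
    (hN : PkN C y0 y1 y2 y3 (F * (U : M4))) (hb : ∀ i j, |(F * (U : M4)) i j| ≤ 2 ^ 31)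
    (hx : Pk C ci (F.mulVec x) ∧ ∀ j, |F.mulVec x j| ≤ 4096) {f : K.I4 → ℕ → ℕ}
    (h : K.rdE C ci w y0 y1 y2 y3 s f ≠ 0) :
    ∃ E s', f E s' ≠ 0 ∧ vI E = ((U⁻¹ : M4ˣ) : M4).mulVec x := by
  obtain ⟨z0, z1, z2, z3, s', h0, h1, h2, h3, hr⟩ := rd4_ex w s
  unfold K.rdE at h
  rw [hr, fc_eq] at h
  obtain ⟨hc, hf⟩ := bool_rec_ne h
  refine ⟨_, s', hf, ?_⟩
  have hc' := Nat.eq_of_beq_eq_true hc
  have hc2 : (K.cX C.Om (2 ^ w / 2) z0 z1 z2 z3 y0 y1 y2 y3 : ℤ) =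
      ci + K.cY C.Om (2 ^ w / 2) z0 z1 z2 z3 y0 y1 y2 y3 := by exact_mod_cast hc'
  have hx1 : (ci : ℤ) = ∑ j : Fin 4, F.mulVec x j * (C.B : ℤ) ^ (j : ℕ) + C.Om := by
    rw [← om_eq hC]
    exact hx.1.1
  have he : (K.cX C.Om (2 ^ w / 2) z0 z1 z2 z3 y0 y1 y2 y3 : ℤ) -
      K.cY C.Om (2 ^ w / 2) z0 z1 z2 z3 y0 y1 y2 y3 - C.Om =
      ∑ j : Fin 4, F.mulVec x j * (C.B : ℤ) ^ (j : ℕ) := by
    rw [hc2, hx1]; ring
  have := read_eq h4 hC hN hb hw h0 h1 h2 h3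
    (fun j => le_trans (hx.2 j) (by norm_num)) he
  rw [← inv_of_eq hF this]
  simp only [vI, sg_eq]
  rfl

theorem prim_eq {a b : Z4} (ha : Prim4 a) (hb : Prim4 b) {s t : ℤ} (hs : 0 < s) (ht : 0 < t)
    (h : s • a = t • b) : a = b := by
  have hg0 : 0 < Int.gcd s t := Int.gcd_pos_of_ne_zero_left _ hs.ne'
  obtain ⟨α, β, hco, hα, hβ⟩ := Int.exists_gcd_one hg0
  have hg : (0 : ℤ) < Int.gcd s t := by exact_mod_cast hg0
  rw [← Int.isCoprime_iff_gcd_eq_one] at hco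
  generalize (Int.gcd s t : ℤ) = g at hα hβ hg
  have hαp : 0 < α := by
    rw [hα] at hs
    exact (pos_iff_pos_of_mul_pos hs).mpr hg
  have hβp : 0 < β := by
    rw [hβ] at ht
    exact (pos_iff_pos_of_mul_pos ht).mpr hg
  have hi : ∀ i, α * a i = β * b i := by
    intro i
    have := congrFun h i
    simp only [Pi.smul_apply, smul_eq_mul] at this
    rw [hα, hβ] at this
    have h2 : g * (α * a i) = g * (β * b i) := by linear_combination this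
    exact mul_left_cancel₀ hg.ne' h2
  have uα : IsUnit α := hb α (fun i => hco.dvd_of_dvd_mul_left ⟨a i, (hi i).symm⟩)
  have uβ : IsUnit β := ha β (fun i => hco.symm.dvd_of_dvd_mul_left ⟨b i, hi i⟩)
  have α1 : α = 1 := by
    rcases Int.isUnit_iff.mp uα with h | h
    · exact h
    · omega
  have β1 : β = 1 := by
    rcases Int.isUnit_iff.mp uβ with h | h
    · exact h
    · omega
  funext i
  have := hi i
  rwa [α1, β1, one_mul, one_mul] at this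

theorem prim_inv {x : Z4} (hx : Prim4 x) (U : M4ˣ) : Prim4 (((U⁻¹ : M4ˣ) : M4).mulVec x) := by
  intro d hd
  refine hx d (fun i => ?_)
  have : x = (U : M4).mulVec (((U⁻¹ : M4ˣ) : M4).mulVec x) := by
    rw [Matrix.mulVec_mulVec, Units.mul_inv, Matrix.one_mulVec]
  rw [this]
  simp only [Matrix.mulVec, dotProduct]
  exact Finset.dvd_sum (fun j _ => Dvd.dvd.mul_left (hd j) _)

theorem prim_gcdI {E : K.I4} (h : K.gcdI E = 1) : Prim4 (vI E) := by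
  intro d hd
  have h0 : d.natAbs ∣ E.x.natAbs := Int.natAbs_dvd_natAbs.mpr (hd 0)
  have h1 : d.natAbs ∣ E.y.natAbs := Int.natAbs_dvd_natAbs.mpr (hd 1)
  have h2 : d.natAbs ∣ E.z.natAbs := Int.natAbs_dvd_natAbs.mpr (hd 2)
  have h3 : d.natAbs ∣ E.w.natAbs := Int.natAbs_dvd_natAbs.mpr (hd 3)
  have : d.natAbs ∣ K.gcdI E := Nat.dvd_gcd (Nat.dvd_gcd h0 h1) (Nat.dvd_gcd h2 h3)
  rw [h, Nat.dvd_one] at this
  exact Int.isUnit_iff_natAbs_eq.mpr this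

theorem rdD_ex (h4 : Pack4Stmt) {C : K.Ctx} {D0 : ℕ} (hC : CtxB C D0) {F : M4} {U : M4ˣ}
    (hF : F.det ≠ 0) {y0 y1 y2 y3 W w s : ℕ} {x : Z4} (hw : w < 32)
    (hN : PkN C y0 y1 y2 y3 (F * (U : M4))) (hb : ∀ i j, |(F * (U : M4)) i j| ≤ 2 ^ 31)
    (hx : Der C F W x) (hp : Prim4 x) {f : K.I4 → ℕ → ℕ}
    (h : K.rdD C W w y0 y1 y2 y3 s f ≠ 0) :
    ∃ E s', f E s' ≠ 0 ∧ vI E = ((U⁻¹ : M4ˣ) : M4).mulVec x := by
  unfold K.rdD at h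
  rw [fc_eq] at h
  obtain ⟨z0, z1, z2, z3, s', h0, h1, h2, h3, hr⟩ := rd4_ex w (Nat.div s 65536)
  rw [hr, fc_eq] at h
  obtain ⟨hc, hf⟩ := bool_rec_ne h
  refine ⟨_, s', hf, ?_⟩
  rw [ands_eq, ands_eq, Bool.and_eq_true, Bool.and_eq_true] at hc
  obtain ⟨⟨hu, hg⟩, hc⟩ := hc
  have hu' : 1 ≤ s % 65536 := Nat.le_of_ble_eq_true hu
  have hg' := prim_gcdI (Nat.eq_of_beq_eq_true hg)
  have hc' := Nat.eq_of_beq_eq_true hc
  have hc2 : (K.cX C.Om (2 ^ w / 2) z0 z1 z2 z3 y0 y1 y2 y3 : ℤ) + ((s % 65536 : ℕ) : ℤ) * W =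
      K.cY C.Om (2 ^ w / 2) z0 z1 z2 z3 y0 y1 y2 y3 + C.Om := by exact_mod_cast hc'
  have hul : s % 65536 < 65536 := Nat.mod_lt _ (by norm_num)
  generalize s % 65536 = u at hu' hul hc2
  obtain ⟨v, s1, t1, hs1, ht1, hv, hW, hst⟩ := hx
  have he : (K.cX C.Om (2 ^ w / 2) z0 z1 z2 z3 y0 y1 y2 y3 : ℤ) -
      K.cY C.Om (2 ^ w / 2) z0 z1 z2 z3 y0 y1 y2 y3 - C.Om =
      ∑ j : Fin 4, (-((u : ℤ) • v)) j * (C.B : ℤ) ^ (j : ℕ) := by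
    have e1 : ∑ j : Fin 4, (-((u : ℤ) • v)) j * (C.B : ℤ) ^ (j : ℕ) = -(u * (W : ℤ)) := by
      rw [hW, Finset.mul_sum, ← Finset.sum_neg_distrib]
      refine Finset.sum_congr rfl (fun j _ => ?_)
      simp only [Pi.neg_apply, Pi.smul_apply, smul_eq_mul]
      ring
    rw [e1]
    linear_combination hc2
  have hr2 := read_eq h4 hC hN hb hw h0 h1 h2 h3 (v := -((u : ℤ) • v)) (fun j => by
    have a1 := hv j
    have a2 : (u : ℤ) < 65536 := by exact_mod_cast hul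
    have a3 : (0 : ℤ) ≤ u := by positivity
    simp only [Pi.neg_apply, Pi.smul_apply, smul_eq_mul, abs_neg]
    rw [abs_of_nonneg (mul_nonneg a3 a1.1)]
    calc (u : ℤ) * v j ≤ 65536 * 2 ^ 63 := mul_le_mul a2.le a1.2.le a1.1 (by norm_num)
      _ ≤ 2 ^ 100 := by norm_num) he
  have hE : vI (K.I4.mk (K.sg (2 ^ w / 2) z0) (K.sg (2 ^ w / 2) z1) (K.sg (2 ^ w / 2) z2)
      (K.sg (2 ^ w / 2) z3)) = ![(z0 : ℤ) - (2 ^ w / 2 : ℕ), z1 - (2 ^ w / 2 : ℕ),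
      z2 - (2 ^ w / 2 : ℕ), z3 - (2 ^ w / 2 : ℕ)] := by
    simp only [vI, sg_eq]
  rw [← hE] at hr2
  set E := K.I4.mk (K.sg (2 ^ w / 2) z0) (K.sg (2 ^ w / 2) z1) (K.sg (2 ^ w / 2) z2)
      (K.sg (2 ^ w / 2) z3) with hEd
  have e1 : (F * (U : M4)).mulVec (t1 • vI E) = F.mulVec ((u * s1) • x) := by
    rw [Matrix.mulVec_smul, hr2, Matrix.mulVec_smul, mul_smul, hst, smul_neg, smul_neg, smul_comm]
  have e2 := inv_of_eq hF e1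
  rw [Matrix.mulVec_smul] at e2
  have hup : (0 : ℤ) < u := by exact_mod_cast hu'
  exact prim_eq hg' (prim_inv hp U) ht1 (mul_pos hup hs1) e2

theorem rdes (h4 : Pack4Stmt) : RdEsStmt := by
  intro T C D0 P F G a b e y0 y1 y2 y3 row w s U f hE hD h
  obtain ⟨hN, hb, -, -⟩ := hD
  have hC := hE.ctx.toCtxB
  have hF := hE.det
  unfold K.rdEs at h
  rw [fc_eq, fc_eq] at h
  have hw : Nat.mod s 32 < 32 := Nat.mod_lt _ (by norm_num)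
  obtain ⟨E0, t0, h, e0⟩ := rdE_ex h4 hC hF hw hN hb hE.c0 h
  obtain ⟨E1, t1, h, e1⟩ := rdE_ex h4 hC hF hw hN hb hE.c1 h
  obtain ⟨E2, t2, h, e2⟩ := rdE_ex h4 hC hF hw hN hb hE.c2 h
  obtain ⟨E3, t3, h, e3⟩ := rdE_ex h4 hC hF hw hN hb hE.c3 h
  have w5 := hE.w5
  have w6 := hE.w6
  generalize T.nd = nd at h w5 w6 ⊢
  match nd with
  | 0 => exact ⟨E0, E1, E2, E3, E0, E0, t3, h, e0, e1, e2, e3, fun h => by omega, fun h => by omega⟩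
  | 1 =>
    rw [if_pos le_rfl] at w5
    obtain ⟨E4, t4, h, e4⟩ := rdD_ex h4 hC hF hw hN hb w5 (hE.root 4).prim h
    exact ⟨E0, E1, E2, E3, E4, E0, t4, h, e0, e1, e2, e3, fun _ => e4, fun h => by omega⟩
  | nd + 2 =>
    rw [if_pos (by omega)] at w5 w6
    obtain ⟨E4, t4, h, e4⟩ := rdD_ex h4 hC hF hw hN hb w5 (hE.root 4).prim h
    obtain ⟨E5, t5, h, e5⟩ := rdD_ex h4 hC hF hw hN hb w6 (hE.root 5).prim h
    exact ⟨E0, E1, E2, E3, E4, E5, t5, h, e0, e1, e2, e3, fun _ => e4, fun _ => e5⟩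

end Pool.Agent.Refl.H58
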