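import Pool.Agent.Helper58_Refl.Tup

/-!
# TUP: one configuration, main theorem
-/

namespace Pool.Agent.Refl.H58

open Matrix

theorem tup (hLeaves : LeavesStmt) (hIso : IsoStmt) (hHand : HandStmt) (hDet : DetIdStmt) :
    TupStmt := by
  intro tb tn cb cn tag n code s hs G m f O σ hL hR hCh hC
  have h : K.tupK tb tn cb cn (K.rootH n) (K.farH tag n code) n code s ≠ 0 := by
    intro h0
    unfold K.tupC at hs
    rw [h0] at hs
    exact Bool.false_ne_true hs
  unfold K.tupK at h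
  obtain ⟨hd, -, h⟩ := fc_ex h
  obtain ⟨st, -, h⟩ := fc_ex h
  obtain ⟨s0, -, h⟩ := fc_ex h
  obtain ⟨s1, -, h⟩ := fc_ex h
  obtain ⟨s2, -, h⟩ := fc_ex h
  obtain ⟨s3, -, h⟩ := fc_ex h
  obtain ⟨d5, -, h⟩ := fc_ex h
  obtain ⟨d6, -, h⟩ := fc_ex h
  obtain ⟨q2, -, h⟩ := fc_ex h
  obtain ⟨q3, -, h⟩ := fc_ex h
  obtain ⟨N01, eN01, h⟩ := fc_ex h
  obtain ⟨N02, eN02, h⟩ := fc_ex h
  obtain ⟨N12, eN12, h⟩ := fc_ex h
  obtain ⟨N03, eN03, h⟩ := fc_ex h
  obtain ⟨N13, eN13, h⟩ := fc_ex h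
  obtain ⟨N23, eN23, h⟩ := fc_ex h
  obtain ⟨t012, et012, h⟩ := sqE_ex h
  obtain ⟨t013, et013, h⟩ := sqE_ex h
  obtain ⟨t023, et023, h⟩ := sqE_ex h
  obtain ⟨t123, et123, h⟩ := sqE_ex h
  obtain ⟨u1, eu1, h⟩ := sqE_ex h
  obtain ⟨u2, eu2, h⟩ := sqE_ex h
  obtain ⟨u3, eu3, h⟩ := sqE_ex h
  obtain ⟨D0, eD0, h⟩ := fc_ex h
  obtain ⟨hc, h⟩ := bool_rec_ne h
  rw [ands_eq, ands_eq, ands_eq, ands_eq, Bool.and_eq_true, Bool.and_eq_true, Bool.and_eq_true,
    Bool.and_eq_true] at hc
  obtain ⟨⟨c1, c2, c3, c4⟩, c5⟩ := hc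
  replace c1 : 1 ≤ D0 := Nat.le_of_ble_eq_true c1
  replace c2 : 1 ≤ N01 := Nat.le_of_ble_eq_true c2
  replace c3 := Nat.le_of_ble_eq_true c3
  replace c4 := Nat.le_of_ble_eq_true c4
  obtain ⟨a, b, c, d, x, y, I⟩ := idx hC.n4 hC.n6 (Nat.eq_of_beq_eq_true c5)
  clear c5
  have hn4 := hC.n4
  have hn6 := hC.n6
  obtain ⟨e, he⟩ : ∃ e : Fin 6 → Z4, ∀ i, e i = f (σ (![a, b, c, d, x, y] i)) := ⟨_, fun _ => rfl⟩
  have hnum : ∀ i j : Fin 6, (i : ℕ) < n → (j : ℕ) < n → i ≠ j →
      K.nl code (![a, b, c, d, x, y] i) (![a, b, c, d, x, y] j) = nn G (e i) (e j) := by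
    intro i j hi hj hij
    rw [he, he]
    exact (hC.num _ _ (I.lt i hi) (I.lt j hj) (I.inj i j hij)).symm
  have hobt : ∀ i j : Fin 6, (i : ℕ) < n → (j : ℕ) < n → i ≠ j → bz G (e i) (e j) ≤ 0 := by
    intro i j hi hj hij
    rw [he, he]
    exact hCh.obt _ _ (hC.inj _ _ (I.lt i hi) (I.lt j hj) (I.inj i j hij))
  have hroot : ∀ i, IsRoot G (e i) := by
    intro i
    rw [he]
    exact hCh.root _
  have m01 : N01 = nn G (e 0) (e 1) := by
    rw [eN01, ← I.ea, ← I.eb]
    exact hnum 0 1 (by simp; omega) (by simp; omega) (by decide)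
  have m02 : N02 = nn G (e 0) (e 2) := by
    rw [eN02, ← I.ea, ← I.ec]
    exact hnum 0 2 (by simp; omega) (by simp; omega) (by decide)
  have m12 : N12 = nn G (e 1) (e 2) := by
    rw [eN12, ← I.eb, ← I.ec]
    exact hnum 1 2 (by simp; omega) (by simp; omega) (by decide)
  have m03 : N03 = nn G (e 0) (e 3) := by
    rw [eN03, ← I.ea, ← I.ed]
    exact hnum 0 3 (by simp; omega) (by simp; omega) (by decide)
  have m13 : N13 = nn G (e 1) (e 3) := by
    rw [eN13, ← I.eb, ← I.ed]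
    exact hnum 1 3 (by simp; omega) (by simp; omega) (by decide)
  have m23 : N23 = nn G (e 2) (e 3) := by
    rw [eN23, ← I.ec, ← I.ed]
    exact hnum 2 3 (by simp; omega) (by simp; omega) (by decide)
  have hD0 := D0_ok c1 et012 et013 et023 et123 eu1 eu2 eu3 eD0
  -- the four roots are independent
  have hobt4 : ∀ i j : Fin 4, i ≠ j → bz G (e (Fin.castLE (by norm_num) i))
      (e (Fin.castLE (by norm_num) j)) ≤ 0 := by
    intro i j hij
    refine hobt _ _ (by simp; omega) (by simp; omega) (fun h => hij ?_)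
    exact Fin.castLE_injective _ h
  have hdet := hDet G (fun i => e (Fin.castLE (by norm_num) i)) hL (fun i => hroot _) hobt4
  have hd4 : d4 (e 0) (e 1) (e 2) (e 3) ≠ 0 := by
    intro h0
    have h1 : 16 * (G.det * d4 (e 0) (e 1) (e 2) (e 3) ^ 2) =
      -(bz G (e 0) (e 0) * bz G (e 1) (e 1) * bz G (e 2) (e 2) * bz G (e 3) (e 3) *
        dd0 (nn G (e 0) (e 1)) (nn G (e 0) (e 2)) (nn G (e 1) (e 2)) (nn G (e 0) (e 3))
        (nn G (e 1) (e 3)) (nn G (e 2) (e 3))) := hdet
    rw [h0, ← m01, ← m02, ← m12, ← m03, ← m13, ← m23, ← hD0] at h1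
    have p0 := (hroot 0).pos
    have p1 := (hroot 1).pos
    have p2 := (hroot 2).pos
    have p3 := (hroot 3).pos
    have p4 : (0 : ℤ) < D0 := by exact_mod_cast c1
    have := mul_pos (mul_pos (mul_pos (mul_pos p0 p1) p2) p3) p4
    linarith
  generalize Nat.mod hd 2 = md at h
  cases md with
  | zero =>
    exfalso
    refine h ?_
    have := hIso G (fun i => e (Fin.castLE (by norm_num) i)) q2 q3 st hL (fun i => hroot _) hobt4
      hd4 (by
        show 1 ≤ nn G (e 0) (e 1)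
        rw [← m01]; exact c2) (by
        show 1 ≤ K.sel q2 (nn G (e 0) (e 2)) (nn G (e 1) (e 2)) 0 0
        rw [← m02, ← m12]; exact c3) (by
        show 1 ≤ K.sel q3 (nn G (e 0) (e 3)) (nn G (e 1) (e 3)) (nn G (e 2) (e 3)) 0
        rw [← m03, ← m13, ← m23]; exact c4)
    show K.isoK N01 N02 N12 N03 N13 N23 st = 0
    rw [m01, m02, m12, m03, m13, m23]
    exact this
  | succ md =>
    obtain ⟨Q, eQ, h⟩ := fc_ex h
    obtain ⟨B, eB, h⟩ := fc_ex h
    obtain ⟨B2, eB2, h⟩ := fc_ex h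
    obtain ⟨B3, eB3, h⟩ := fc_ex h
    obtain ⟨Om, eOm, h⟩ := fc_ex h
    obtain ⟨e0, ee0, h⟩ := fc_ex h
    obtain ⟨e1, ee1, h⟩ := fc_ex h
    obtain ⟨e2, ee2, h⟩ := fc_ex h
    obtain ⟨e3, ee3, h⟩ := fc_ex h
    obtain ⟨a0, ea0, h⟩ := fc_ex h
    obtain ⟨a1, ea1, h⟩ := fc_ex h
    obtain ⟨a2, ea2, h⟩ := fc_ex h
    obtain ⟨a3, ea3, h⟩ := fc_ex h
    obtain ⟨b0, eb0, h⟩ := fc_ex h
    obtain ⟨b1, eb1, h⟩ := fc_ex h
    obtain ⟨b2, eb2, h⟩ := fc_ex h
    obtain ⟨b3, eb3, h⟩ := fc_ex h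
    have hQ : 2 ^ 60 ≤ Q := by
      rw [eQ]
      show 2 ^ 60 ≤ 2 ^ 80 * (210 * D0) ^ 8
      have h1 : 1 ≤ (210 * D0) ^ 8 := Nat.one_le_pow _ _ (by omega)
      calc 2 ^ 60 ≤ 2 ^ 80 * 1 := by norm_num
        _ ≤ 2 ^ 80 * (210 * D0) ^ 8 := Nat.mul_le_mul_left _ h1
    have l01 : N01 < 4096 := by rw [eN01]; exact nl_lt _ _ _
    have l02 : N02 < 4096 := by rw [eN02]; exact nl_lt _ _ _
    have l12 : N12 < 4096 := by rw [eN12]; exact nl_lt _ _ _
    have l03 : N03 < 4096 := by rw [eN03]; exact nl_lt _ _ _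
    have l13 : N13 < 4096 := by rw [eN13]; exact nl_lt _ _ _
    have l23 : N23 < 4096 := by rw [eN23]; exact nl_lt _ _ _
    have tok : TOK (K.TCtx.mk Q B B2 B3 Om D0 N01 N02 N12 N03 N13 N23 e0 e1 e2 e3
        (Nat.mul (Nat.mul (K.npr 2 D0) (K.npr 3 D0)) (Nat.mul (K.npr 5 D0) (K.npr 7 D0)))
        (Bool.rec 4 16 (Nat.beq (Nat.mod D0 2) 0)) (Nat.sub n 4)
        a0 a1 a2 a3 b0 b1 b2 b3) G e :=
      { lat := hL
        red := hR
        root := hroot
        obt := by
          intro i j hi hj hij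
          have hj' : (j : ℕ) < 4 + (n - 4) := hj
          exact hobt i j (by omega) (by omega) hij
        n01 := m01
        n02 := m02
        n12 := m12
        n03 := m03
        n13 := m13
        n23 := m23
        lt := ⟨l01, l02, l12, l03, l13, l23⟩
        a := by
          intro hnd
          have h5 : 5 ≤ n := by
            have : 1 ≤ n - 4 := hnd
            omega
          refine ⟨?_, ?_, ?_, ?_⟩
          · show a0 = _
            rw [ea0, ← I.ea, ← I.ex h5]
            exact hnum 0 4 (by simp; omega) (by simp; omega) (by decide)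
          · show a1 = _
            rw [ea1, ← I.eb, ← I.ex h5]
            exact hnum 1 4 (by simp; omega) (by simp; omega) (by decide)
          · show a2 = _
            rw [ea2, ← I.ec, ← I.ex h5]
            exact hnum 2 4 (by simp; omega) (by simp; omega) (by decide)
          · show a3 = _
            rw [ea3, ← I.ed, ← I.ex h5]
            exact hnum 3 4 (by simp; omega) (by simp; omega) (by decide)
        b := by
          intro hnd
          have h6 : 6 ≤ n := by
            have : 2 ≤ n - 4 := hnd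
            omega
          refine ⟨?_, ?_, ?_, ?_⟩
          · show b0 = _
            rw [eb0, ← I.ea, ← I.ey h6]
            exact hnum 0 5 (by simp; omega) (by simp; omega) (by decide)
          · show b1 = _
            rw [eb1, ← I.eb, ← I.ey h6]
            exact hnum 1 5 (by simp; omega) (by simp; omega) (by decide)
          · show b2 = _
            rw [eb2, ← I.ec, ← I.ey h6]
            exact hnum 2 5 (by simp; omega) (by simp; omega) (by decide)
          · show b3 = _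
            rw [eb3, ← I.ed, ← I.ey h6]
            exact hnum 3 5 (by simp; omega) (by simp; omega) (by decide)
        D1 := c1
        D0 := hD0
        Q := eQ
        B := eB
        B2 := eB2
        B3 := eB3
        Om := by
          show Om = Q * (1 + B + (B2 + B3))
          exact eOm
        e0 := ec_ok hQ l12 l13 l23 et123 ee0
        e1 := ec_ok hQ l02 l03 l23 et023 ee1
        e2 := ec_ok hQ l01 l03 l13 et013 ee2
        e3 := ec_ok hQ l01 l02 l12 et012 ee3
        M0 := M0_ok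
        M4 := M4_ok }
    obtain ⟨C, P, F, a', b', k0, k1, k2, k3, hE, hO⟩ :=
      hLeaves _ G e tb tn cb cn q2 q3 st _ _ tok c2 c3 c4 h
    rcases hO with hO | hO | ⟨y0, y1, y2, y3, row, w, s', U, hF, hh⟩
    · exact Or.inl hO
    · exact Or.inr hO
    exfalso
    have hand := hHand _ C D0 P F G a' b' e m f O tag n code σ a b c d x y k0 k1 k2 k3 y0 y1 y2 y3
      row w s' U hE hCh hC rfl (he 0) (he 1) (he 2) (he 3) (fun _ => he 4) (fun _ => he 5) I.surj hF
    rw [← I.ea, ← I.eb, ← I.ec, ← I.ed] at hh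
    rcases Nat.lt_or_ge n 5 with h5 | h5
    · have hn : n = 4 := by omega
      have htag := hC.t0 hn
      rcases hh with hh | hh
      · have hs4 : ∀ i < 4, i = (a : ℕ) ∨ i = (b : ℕ) ∨ i = (c : ℕ) ∨ i = (d : ℕ) := by
          intro i hi
          rcases I.surj ⟨i, by omega⟩ (by simp; omega) with h | h | h | h | h | h
          · exact Or.inl (congrArg Fin.val h)
          · exact Or.inr (Or.inl (congrArg Fin.val h))
          · exact Or.inr (Or.inr (Or.inl (congrArg Fin.val h)))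
          · exact Or.inr (Or.inr (Or.inr (congrArg Fin.val h)))
          · omega
          · omega
        subst hn
        rw [rootH_four hs4 d5 d6 x y] at hh
        exact hh hand.1
      · rw [htag, farH_zero] at hh
        exact hh rfl
    · rw [← I.ex h5] at hh
      rcases hh with hh | hh
      · exact hh hand.1
      · exact hh hand.2

end Pool.Agent.Refl.H58
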