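import Pool.Agent.Helper58_Refl.RdEs
import Pool.Agent.Helper92_Refl.SqK

/-!
# TUP: one configuration
-/

namespace Pool.Agent.Refl.H58

open Matrix

/-! ### syntactic lemmas -/

theorem fc_ex {n : ℕ} {f : ℕ → ℕ} (h : K.fc n f ≠ 0) : ∃ x, x = n ∧ f x ≠ 0 :=
  ⟨n, rfl, by rwa [fc_eq] at h⟩

theorem rdE_ne {C : K.Ctx} {y0 y1 y2 y3 ci w s : ℕ} {f : K.I4 → ℕ → ℕ}
    (h : K.rdE C ci w y0 y1 y2 y3 s f ≠ 0) : ∃ E s', f E s' ≠ 0 := by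
  obtain ⟨z0, z1, z2, z3, s', -, -, -, -, hr⟩ := rd4_ex w s
  unfold K.rdE at h
  rw [hr, fc_eq] at h
  exact ⟨_, s', (bool_rec_ne h).2⟩

theorem rdD_ne {C : K.Ctx} {y0 y1 y2 y3 W w s : ℕ} {f : K.I4 → ℕ → ℕ}
    (h : K.rdD C W w y0 y1 y2 y3 s f ≠ 0) : ∃ E s', f E s' ≠ 0 := by
  unfold K.rdD at h
  rw [fc_eq] at h
  obtain ⟨z0, z1, z2, z3, s', -, -, -, -, hr⟩ := rd4_ex w (Nat.div s 65536)
  rw [hr, fc_eq] at h
  exact ⟨_, s', (bool_rec_ne h).2⟩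

theorem rdEs_ne {T : K.TCtx} {C : K.Ctx} {y0 y1 y2 y3 s : ℕ}
    {f : K.I4 → K.I4 → K.I4 → K.I4 → K.I4 → K.I4 → ℕ → ℕ}
    (h : K.rdEs T C y0 y1 y2 y3 s f ≠ 0) : ∃ E0 E1 E2 E3 E4 E5 s', f E0 E1 E2 E3 E4 E5 s' ≠ 0 := by
  unfold K.rdEs at h
  rw [fc_eq, fc_eq] at h
  obtain ⟨E0, t0, h⟩ := rdE_ne h
  obtain ⟨E1, t1, h⟩ := rdE_ne h
  obtain ⟨E2, t2, h⟩ := rdE_ne h
  obtain ⟨E3, t3, h⟩ := rdE_ne h
  generalize T.nd = nd at h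
  match nd with
  | 0 => exact ⟨_, _, _, _, _, _, _, h⟩
  | 1 =>
    obtain ⟨E4, t4, h⟩ := rdD_ne h
    exact ⟨_, _, _, _, _, _, _, h⟩
  | nd + 2 =>
    obtain ⟨E4, t4, h⟩ := rdD_ne h
    obtain ⟨E5, t5, h⟩ := rdD_ne h
    exact ⟨_, _, _, _, _, _, _, h⟩

theorem rdl_ne {k : ℕ} : ∀ {F : List ℕ → ℕ → ℕ} {s : ℕ}, K.rdl k F s ≠ 0 → ∃ l s', F l s' ≠ 0 := by
  induction k with
  | zero => intro F s h; exact ⟨_, _, h⟩
  | succ k ih =>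
    intro F s h
    unfold K.rdl at h
    rw [show (Nat.rec (fun f s => f List.nil s) (fun _ ih f s =>
      K.fc (Nat.add (Nat.mul 16 (Nat.mod s 4096)) (Nat.mod (Nat.div s 4096) 16)) fun x =>
      K.fc (Nat.div s 65536) fun s => ih (fun l s => f (List.cons x l) s) s) (k + 1) :
        (List ℕ → ℕ → ℕ) → ℕ → ℕ) F s =
      K.fc (Nat.add (Nat.mul 16 (Nat.mod s 4096)) (Nat.mod (Nat.div s 4096) 16)) fun x =>
      K.fc (Nat.div s 65536) fun s => K.rdl k (fun l s => F (List.cons x l) s) s from rfl] at h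
    rw [fc_eq, fc_eq] at h
    obtain ⟨l, s', h⟩ := ih h
    exact ⟨_, _, h⟩

theorem farOK_zero (code ed : ℕ) : K.farOK 0 code ed = false := by
  match ed with
  | 0 => rfl
  | 1 => rfl
  | ed + 2 => rfl

theorem farH_zero (n code s0 s1 s2 s3 d5 d6 : ℕ) (T : K.TCtx) (C : K.Ctx)
    (k0 k1 k2 k3 y0 y1 y2 y3 row w s : ℕ) :
    K.farH 0 n code s0 s1 s2 s3 d5 d6 T C k0 k1 k2 k3 y0 y1 y2 y3 row w s = 0 := by
  by_contra h
  unfold K.farH at h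
  obtain ⟨E0, E1, E2, E3, E4, E5, s', h⟩ := rdEs_ne h
  rw [fc_eq, fc_eq] at h
  obtain ⟨l, s'', h⟩ := rdl_ne h
  rw [farOK_zero] at h
  exact h rfl

theorem getE_four {s0 s1 s2 s3 : ℕ} (hs : ∀ i < 4, i = s0 ∨ i = s1 ∨ i = s2 ∨ i = s3)
    (d d' : ℕ) (E0 E1 E2 E3 E4 E5 : K.I4) (i : ℕ) (hi : i < 4) :
    K.getE s0 s1 s2 s3 d E0 E1 E2 E3 E4 E5 i = K.getE s0 s1 s2 s3 d' E0 E1 E2 E3 E4 E5 i := by
  unfold K.getE
  have key : Nat.beq i s0 = true ∨ Nat.beq i s1 = true ∨ Nat.beq i s2 = true ∨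
      Nat.beq i s3 = true := by
    rcases hs i hi with h | h | h | h
    · left; rw [h]; exact Nat.beq_refl _
    · right; left; rw [h]; exact Nat.beq_refl _
    · right; right; left; rw [h]; exact Nat.beq_refl _
    · right; right; right; rw [h]; exact Nat.beq_refl _
  generalize Nat.beq i s0 = b0 at key ⊢
  generalize Nat.beq i s1 = b1 at key ⊢
  generalize Nat.beq i s2 = b2 at key ⊢
  generalize Nat.beq i s3 = b3 at key ⊢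
  cases b0
  · cases b1
    · cases b2
      · cases b3
        · simp at key
        · rfl
      · rfl
    · rfl
  · rfl

theorem rdEs_congr {T : K.TCtx} {C : K.Ctx} {y0 y1 y2 y3 s : ℕ}
    {f f' : K.I4 → K.I4 → K.I4 → K.I4 → K.I4 → K.I4 → ℕ → ℕ}
    (h : ∀ E0 E1 E2 E3 E4 E5 s, f E0 E1 E2 E3 E4 E5 s = f' E0 E1 E2 E3 E4 E5 s) :
    K.rdEs T C y0 y1 y2 y3 s f = K.rdEs T C y0 y1 y2 y3 s f' := by
  have : f = f' := by
    funext E0 E1 E2 E3 E4 E5 s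
    exact h E0 E1 E2 E3 E4 E5 s
  rw [this]

theorem sel_four {v : ℕ} (hv : v < 2) : K.sel v 0 0 0 1 < 4 ∧ K.sel v 1 1 2 2 < 4 ∧
    K.sel v 2 3 4 5 < 4 ∧ K.sel v 3 2 1 0 < 4 := by
  match v, hv with
  | 0, _ => exact ⟨by decide, by decide, by decide, by decide⟩
  | 1, _ => exact ⟨by decide, by decide, by decide, by decide⟩

theorem bool_rec_congr {b : Bool} {x y : ℕ} (h : b = true → x = y) :
    (Bool.rec 0 x b : ℕ) = Bool.rec 0 y b := by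
  cases b
  · rfl
  · exact h rfl

theorem inner_eq {A : K.I10} {g g' : ℕ → K.I4} (hg : ∀ i < 4, g i = g' i) {r : K.I4}
    {v v' h s : ℕ} :
    (Bool.rec 0
      (Nat.rec
        (K.fc (Nat.mod s 32) fun wc => K.rd4 wc (Nat.div s 32) fun al be ga D s =>
          K.fc (Nat.div (Nat.pow 2 wc) 2) fun tc =>
          K.okb (K.mixC r (g (K.sel v 0 0 0 1)) (g (K.sel v 1 1 2 2)) (g (K.sel v 2 3 4 5)) D
            (K.sg tc al) (K.sg tc be) (K.sg tc ga)) s)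
        (fun _ _ => K.okb (K.sepC r (g (K.sel v 0 0 0 1)) (g (K.sel v 1 1 2 2))
          (g (K.sel v 2 3 4 5)) (g (K.sel v 3 2 1 0))
          (g (K.sel v' 0 0 0 1)) (g (K.sel v' 1 1 2 2)) (g (K.sel v' 2 3 4 5))
          (g (K.sel v' 3 2 1 0))) s)
        (Nat.mod (Nat.div h 32) 2))
      (K.ands (K.isR A r) (K.ands (Nat.blt v (Nat.sub 4 2)) (Nat.blt v' (Nat.sub 4 2)))) : ℕ) =
    (Bool.rec 0
      (Nat.rec
        (K.fc (Nat.mod s 32) fun wc => K.rd4 wc (Nat.div s 32) fun al be ga D s =>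
          K.fc (Nat.div (Nat.pow 2 wc) 2) fun tc =>
          K.okb (K.mixC r (g' (K.sel v 0 0 0 1)) (g' (K.sel v 1 1 2 2)) (g' (K.sel v 2 3 4 5)) D
            (K.sg tc al) (K.sg tc be) (K.sg tc ga)) s)
        (fun _ _ => K.okb (K.sepC r (g' (K.sel v 0 0 0 1)) (g' (K.sel v 1 1 2 2))
          (g' (K.sel v 2 3 4 5)) (g' (K.sel v 3 2 1 0))
          (g' (K.sel v' 0 0 0 1)) (g' (K.sel v' 1 1 2 2)) (g' (K.sel v' 2 3 4 5))
          (g' (K.sel v' 3 2 1 0))) s)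
        (Nat.mod (Nat.div h 32) 2))
      (K.ands (K.isR A r) (K.ands (Nat.blt v (Nat.sub 4 2)) (Nat.blt v' (Nat.sub 4 2)))) : ℕ) := by
  refine bool_rec_congr (fun hb => ?_)
  rw [ands_eq, ands_eq, Bool.and_eq_true, Bool.and_eq_true] at hb
  have hv : v < 2 := Nat.le_of_ble_eq_true hb.2.1
  have hv' : v' < 2 := Nat.le_of_ble_eq_true hb.2.2
  obtain ⟨a1, a2, a3, a4⟩ := sel_four hv
  obtain ⟨b1, b2, b3, b4⟩ := sel_four hv'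
  rw [hg _ a1, hg _ a2, hg _ a3, hg _ a4, hg _ b1, hg _ b2, hg _ b3, hg _ b4]

theorem rootH_four {s0 s1 s2 s3 : ℕ} (hs : ∀ i < 4, i = s0 ∨ i = s1 ∨ i = s2 ∨ i = s3)
    (d5 d6 d5' d6' : ℕ) (T : K.TCtx) (C : K.Ctx)
    (k0 k1 k2 k3 y0 y1 y2 y3 row w s : ℕ) :
    K.rootH 4 s0 s1 s2 s3 d5 d6 T C k0 k1 k2 k3 y0 y1 y2 y3 row w s =
      K.rootH 4 s0 s1 s2 s3 d5' d6' T C k0 k1 k2 k3 y0 y1 y2 y3 row w s := by
  unfold K.rootH
  refine rdEs_congr (fun E0 E1 E2 E3 E4 E5 s => ?_)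
  rw [fc_eq, fc_eq]
  rw [fc_eq, fc_eq]
  rw [fc_eq, fc_eq]
  rw [fc_eq, fc_eq]
  obtain ⟨r0, r1, r2, r3, st, -, -, -, -, hr⟩ :=
    rd4_ex (Nat.mod (Nat.mod s 1024) 32) (Nat.div s 1024)
  rw [hr, hr, fc_eq, fc_eq]
  exact inner_eq (getE_four hs d5 d5' E0 E1 E2 E3 E4 E5)

theorem sqE_ex {n : ℕ} {f : ℕ → ℕ} (h : K.sqE n f ≠ 0) : ∃ r, r * r = n ∧ f r ≠ 0 := by
  unfold K.sqE at h
  rw [fc_eq, fc_eq] at h
  obtain ⟨hc, hf⟩ := bool_rec_ne h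
  exact ⟨_, Nat.eq_of_beq_eq_true hc, hf⟩

/-! ### indices -/

theorem idx6 : ∀ a b c d x y : Fin 6,
    2 ^ (a : ℕ) + 2 ^ (b : ℕ) + (2 ^ (c : ℕ) + 2 ^ (d : ℕ)) + (2 ^ (x : ℕ) + 2 ^ (y : ℕ)) = 63 →
    (∀ i j : Fin 6, i ≠ j → ![a, b, c, d, x, y] i ≠ ![a, b, c, d, x, y] j) ∧
    (∀ i : Fin 6, i = a ∨ i = b ∨ i = c ∨ i = d ∨ i = x ∨ i = y) := by
  decide +kernel

theorem lt6 {s : ℕ} (h : 2 ^ s ≤ 63) : s < 6 := by
  by_contra hn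
  have : 2 ^ 6 ≤ 2 ^ s := Nat.pow_le_pow_right (by norm_num) (by omega)
  omega

/-- the original indices -/
structure Idx (n s0 s1 s2 s3 d5 d6 : ℕ) (a b c d x y : Fin 6) : Prop where
  ea : (a : ℕ) = s0
  eb : (b : ℕ) = s1
  ec : (c : ℕ) = s2
  ed : (d : ℕ) = s3
  ex : 5 ≤ n → (x : ℕ) = d5
  ey : 6 ≤ n → (y : ℕ) = d6
  inj : ∀ i j : Fin 6, i ≠ j → ![a, b, c, d, x, y] i ≠ ![a, b, c, d, x, y] j
  lt : ∀ i : Fin 6, (i : ℕ) < n → (![a, b, c, d, x, y] i : ℕ) < n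
  surj : ∀ i : Fin 6, (i : ℕ) < n → i = a ∨ i = b ∨ i = c ∨ i = d ∨ (5 ≤ n ∧ i = x) ∨
    (6 ≤ n ∧ i = y)

theorem idx_mk {n s0 s1 s2 s3 d5 d6 : ℕ} {a b c d x y : Fin 6} (ha : (a : ℕ) = s0)
    (hb : (b : ℕ) = s1) (hc : (c : ℕ) = s2) (hd : (d : ℕ) = s3)
    (hx : 5 ≤ n → (x : ℕ) = d5) (hy : 6 ≤ n → (y : ℕ) = d6) (hn : 4 ≤ n)
    (hx' : n ≤ 4 → x = 4) (hy' : n ≤ 5 → y = 5)
    (h : 2 ^ (a : ℕ) + 2 ^ (b : ℕ) + (2 ^ (c : ℕ) + 2 ^ (d : ℕ)) +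
      (2 ^ (x : ℕ) + 2 ^ (y : ℕ)) = 63) : Idx n s0 s1 s2 s3 d5 d6 a b c d x y := by
  obtain ⟨h1, h2⟩ := idx6 a b c d x y h
  have key : ∀ j : Fin 6, n ≤ j → ![a, b, c, d, x, y] j = j := by
    intro j hj
    fin_cases j
    · exact absurd hj (by simp; omega)
    · exact absurd hj (by simp; omega)
    · exact absurd hj (by simp; omega)
    · exact absurd hj (by simp; omega)
    · exact hx' hj
    · exact hy' hj
  refine ⟨ha, hb, hc, hd, hx, hy, h1, fun i hi => ?_, fun i hi => ?_⟩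
  · by_contra hge
    have hk := key _ (not_lt.mp hge)
    have : ![a, b, c, d, x, y] i = i := by
      by_contra hne
      exact h1 _ _ hne hk
    rw [this] at hge
    exact hge hi
  · rcases h2 i with h | h | h | h | h | h
    · exact Or.inl h
    · exact Or.inr (Or.inl h)
    · exact Or.inr (Or.inr (Or.inl h))
    · exact Or.inr (Or.inr (Or.inr (Or.inl h)))
    · rcases Nat.lt_or_ge n 5 with h5 | h5
      · have := hx' (by omega)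
        rw [this] at h
        rw [h] at hi
        exact absurd hi (by simp; omega)
      · exact Or.inr (Or.inr (Or.inr (Or.inr (Or.inl ⟨h5, h⟩))))
    · rcases Nat.lt_or_ge n 6 with h5 | h5
      · have := hy' (by omega)
        rw [this] at h
        rw [h] at hi
        exact absurd hi (by simp; omega)
      · exact Or.inr (Or.inr (Or.inr (Or.inr (Or.inr ⟨h5, h⟩))))

theorem idx {n s0 s1 s2 s3 d5 d6 : ℕ} (h4 : 4 ≤ n) (h6 : n ≤ 6)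
    (h : 2 ^ s0 + 2 ^ s1 + (2 ^ s2 + 2 ^ s3) + ((Nat.rec 0 (fun _ _ => 2 ^ d5) (n - 4) : ℕ) +
      (Nat.rec 0 (fun _ _ => 2 ^ d6) (n - 5) : ℕ)) = 2 ^ n - 1) :
    ∃ a b c d x y : Fin 6, Idx n s0 s1 s2 s3 d5 d6 a b c d x y := by
  have p0 := Nat.two_pow_pos s0
  have p1 := Nat.two_pow_pos s1
  have p2 := Nat.two_pow_pos s2
  have p3 := Nat.two_pow_pos s3
  have p5 := Nat.two_pow_pos d5
  have p6 := Nat.two_pow_pos d6
  obtain rfl | rfl | rfl : n = 4 ∨ n = 5 ∨ n = 6 := by omega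
  · replace h : 2 ^ s0 + 2 ^ s1 + (2 ^ s2 + 2 ^ s3) + (0 + 0) = 15 := h
    have l0 := @lt6 s0 (by omega)
    have l1 := @lt6 s1 (by omega)
    have l2 := @lt6 s2 (by omega)
    have l3 := @lt6 s3 (by omega)
    refine ⟨⟨s0, l0⟩, ⟨s1, l1⟩, ⟨s2, l2⟩, ⟨s3, l3⟩, 4, 5, idx_mk rfl rfl rfl rfl
      (fun h => by omega) (fun h => by omega) le_rfl (fun _ => rfl) (fun _ => rfl) ?_⟩
    show 2 ^ s0 + 2 ^ s1 + (2 ^ s2 + 2 ^ s3) + (2 ^ 4 + 2 ^ 5) = 63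
    omega
  · replace h : 2 ^ s0 + 2 ^ s1 + (2 ^ s2 + 2 ^ s3) + (2 ^ d5 + 0) = 31 := h
    have l0 := @lt6 s0 (by omega)
    have l1 := @lt6 s1 (by omega)
    have l2 := @lt6 s2 (by omega)
    have l3 := @lt6 s3 (by omega)
    have l4 := @lt6 d5 (by omega)
    refine ⟨⟨s0, l0⟩, ⟨s1, l1⟩, ⟨s2, l2⟩, ⟨s3, l3⟩, ⟨d5, l4⟩, 5, idx_mk rfl rfl rfl rfl
      (fun h => rfl) (fun h => by omega) (by omega) (fun h => by omega) (fun _ => rfl) ?_⟩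
    show 2 ^ s0 + 2 ^ s1 + (2 ^ s2 + 2 ^ s3) + (2 ^ d5 + 2 ^ 5) = 63
    omega
  · replace h : 2 ^ s0 + 2 ^ s1 + (2 ^ s2 + 2 ^ s3) + (2 ^ d5 + 2 ^ d6) = 63 := h
    have l0 := @lt6 s0 (by omega)
    have l1 := @lt6 s1 (by omega)
    have l2 := @lt6 s2 (by omega)
    have l3 := @lt6 s3 (by omega)
    have l4 := @lt6 d5 (by omega)
    have l5 := @lt6 d6 (by omega)
    refine ⟨⟨s0, l0⟩, ⟨s1, l1⟩, ⟨s2, l2⟩, ⟨s3, l3⟩, ⟨d5, l4⟩, ⟨d6, l5⟩, idx_mk rfl rfl rfl rfl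
      (fun h => rfl) (fun h => rfl) (by omega) (fun h => by omega) (fun h => by omega) ?_⟩
    show 2 ^ s0 + 2 ^ s1 + (2 ^ s2 + 2 ^ s3) + (2 ^ d5 + 2 ^ d6) = 63
    omega

/-! ### arithmetic of the constants -/

theorem nl_lt (code i j : ℕ) : K.nl code i j < 4096 := by
  unfold K.nl
  cases Nat.blt i j
  · exact Nat.mod_lt _ (by norm_num)
  · exact Nat.mod_lt _ (by norm_num)

theorem nl_symm {code i j : ℕ} (h : i ≠ j) : K.nl code i j = K.nl code j i := by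
  unfold K.nl
  rw [H92.blt_rec, H92.blt_rec]
  by_cases h1 : i < j
  · rw [if_pos h1, if_neg (by omega)]
  · rw [if_neg h1, if_pos (by omega)]

theorem e_mod {Q x : ℕ} (hQ : 2 ^ 60 ≤ Q) (hx : x ≤ 2 ^ 20) :
    Nat.mod (Nat.sub (Nat.add 8 (Nat.mul 2 Q)) (Nat.mul 2 x)) Q < Q ∧
    (Q : ℤ) ∣ (Nat.mod (Nat.sub (Nat.add 8 (Nat.mul 2 Q)) (Nat.mul 2 x)) Q : ℕ) -
      (8 - 2 * (x : ℤ)) := by
  have e1 : Nat.mod (Nat.sub (Nat.add 8 (Nat.mul 2 Q)) (Nat.mul 2 x)) Q =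
    (8 + 2 * Q - 2 * x) % Q := rfl
  rw [e1]
  refine ⟨Nat.mod_lt _ (by omega), ?_⟩
  have e2 : ((8 + 2 * Q - 2 * x : ℕ) : ℤ) = 8 + 2 * Q - 2 * x := by
    rw [Nat.cast_sub (by omega)]
    push_cast
    ring
  rw [Int.natCast_mod, e2]
  have := Int.emod_add_mul_ediv (8 + 2 * (Q : ℤ) - 2 * x) Q
  refine ⟨2 - (8 + 2 * (Q : ℤ) - 2 * x) / Q, ?_⟩
  linear_combination this

theorem sq_bd {r a b c : ℕ} (h : r * r = a * b * c) (ha : a < 4096) (hb : b < 4096)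
    (hc : c < 4096) : r < 2 ^ 18 := by
  by_contra hn
  have h1 : 2 ^ 18 * 2 ^ 18 ≤ r * r := Nat.mul_le_mul (by omega) (by omega)
  have h2 : a * b * c ≤ 4095 * 4095 * 4095 :=
    Nat.mul_le_mul (Nat.mul_le_mul (by omega) (by omega)) (by omega)
  rw [h] at h1
  omega

theorem npr_dvd {q D p : ℕ} (hq : q.Prime) (hp : p.Prime) (h : p ∣ K.npr q D) :
    p = q ∧ ¬ p ∣ D := by
  unfold K.npr at h
  rw [H92.beq_rec] at h
  split_ifs at h with h1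
  · exact absurd (Nat.dvd_one.mp h) hp.one_lt.ne'
  · have e := (Nat.prime_dvd_prime_iff_eq hp hq).mp h
    refine ⟨e, fun hd => h1 ?_⟩
    rw [e] at hd
    exact Nat.mod_eq_zero_of_dvd hd

theorem npr_ne {q D : ℕ} (hq : q ≠ 0) : K.npr q D ≠ 0 := by
  unfold K.npr
  rw [H92.beq_rec]
  split_ifs
  · exact one_ne_zero
  · exact hq

theorem M0_ok {D0 : ℕ} : Nat.mul (Nat.mul (K.npr 2 D0) (K.npr 3 D0))
      (Nat.mul (K.npr 5 D0) (K.npr 7 D0)) ≠ 0 ∧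
    ∀ p : ℕ, p.Prime → p ∣ Nat.mul (Nat.mul (K.npr 2 D0) (K.npr 3 D0))
      (Nat.mul (K.npr 5 D0) (K.npr 7 D0)) → p ∈ [2, 3, 5, 7] ∧ ¬ p ∣ D0 := by
  have e : Nat.mul (Nat.mul (K.npr 2 D0) (K.npr 3 D0))
      (Nat.mul (K.npr 5 D0) (K.npr 7 D0)) =
    (K.npr 2 D0 * K.npr 3 D0) * (K.npr 5 D0 * K.npr 7 D0) := rfl
  rw [e]
  refine ⟨mul_ne_zero (mul_ne_zero (npr_ne (by norm_num)) (npr_ne (by norm_num)))
    (mul_ne_zero (npr_ne (by norm_num)) (npr_ne (by norm_num))), fun p hp hd => ?_⟩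
  rcases (Nat.Prime.dvd_mul hp).mp hd with h | h
  · rcases (Nat.Prime.dvd_mul hp).mp h with h | h
    · obtain ⟨e, h⟩ := npr_dvd (by norm_num) hp h
      exact ⟨by simp [e], h⟩
    · obtain ⟨e, h⟩ := npr_dvd (by norm_num) hp h
      exact ⟨by simp [e], h⟩
  · rcases (Nat.Prime.dvd_mul hp).mp h with h | h
    · obtain ⟨e, h⟩ := npr_dvd (by norm_num) hp h
      exact ⟨by simp [e], h⟩
    · obtain ⟨e, h⟩ := npr_dvd (by norm_num) hp h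
      exact ⟨by simp [e], h⟩

theorem M4_ok {D0 : ℕ} : (Bool.rec 4 16 (Nat.beq (Nat.mod D0 2) 0) : ℕ) = 16 ∨
    ((Bool.rec 4 16 (Nat.beq (Nat.mod D0 2) 0) : ℕ) = 4 ∧ ¬ 2 ∣ D0) := by
  rw [H92.beq_rec]
  split_ifs with h
  · exact Or.inl rfl
  · exact Or.inr ⟨rfl, fun hd => h (Nat.mod_eq_zero_of_dvd hd)⟩

theorem sqrt_of {r n : ℕ} (h : r * r = n) : Nat.sqrt n = r := by
  rw [← h]; exact Nat.sqrt_eq r

theorem D0_ok {D0 N01 N02 N12 N03 N13 N23 t012 t013 t023 t123 u1 u2 u3 : ℕ}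
    (h1 : 1 ≤ D0)
    (a1 : t012 * t012 = Nat.mul (Nat.mul N01 N02) N12)
    (a2 : t013 * t013 = Nat.mul (Nat.mul N01 N03) N13)
    (a3 : t023 * t023 = Nat.mul (Nat.mul N02 N03) N23)
    (a4 : t123 * t123 = Nat.mul (Nat.mul N12 N13) N23)
    (b1 : u1 * u1 = Nat.mul (Nat.mul N01 N12) (Nat.mul N23 N03))
    (b2 : u2 * u2 = Nat.mul (Nat.mul N01 N13) (Nat.mul N23 N02))
    (b3 : u3 * u3 = Nat.mul (Nat.mul N02 N12) (Nat.mul N13 N03))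
    (h : D0 = Nat.sub (Nat.add (Nat.mul 4 (Nat.add (Nat.add (Nat.add N01 N02) (Nat.add N12 N03))
      (Nat.add (Nat.add N13 N23) (Nat.add (Nat.add t012 t013) (Nat.add t023 t123)))))
      (Nat.mul 2 (Nat.add u1 (Nat.add u2 u3))))
    (Nat.add 16 (Nat.add (Nat.mul N01 N23) (Nat.add (Nat.mul N02 N13) (Nat.mul N03 N12))))) :
    (D0 : ℤ) = dd0 N01 N02 N12 N03 N13 N23 := by
  have e : D0 = (4 * (((N01 + N02) + (N12 + N03)) + ((N13 + N23) + ((t012 + t013) +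
    (t023 + t123)))) + 2 * (u1 + (u2 + u3))) - (16 + (N01 * N23 + (N02 * N13 + N03 * N12))) := h
  have e2 : (D0 : ℤ) = (4 * ((((N01 : ℤ) + N02) + (N12 + N03)) + ((N13 + N23) + ((t012 + t013) +
    (t023 + t123)))) + 2 * (u1 + (u2 + u3))) - (16 + (N01 * N23 + (N02 * N13 + N03 * N12))) := by
    rw [e, Nat.cast_sub (by omega)]
    push_cast
    ring
  have r1 : Nat.sqrt (N01 * N02 * N12) = t012 := sqrt_of a1
  have r2 : Nat.sqrt (N01 * N03 * N13) = t013 := sqrt_of a2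
  have r3 : Nat.sqrt (N02 * N03 * N23) = t023 := sqrt_of a3
  have r4 : Nat.sqrt (N12 * N13 * N23) = t123 := sqrt_of a4
  have r5 : Nat.sqrt (N01 * N12 * (N23 * N03)) = u1 := sqrt_of b1
  have r6 : Nat.sqrt (N01 * N13 * (N23 * N02)) = u2 := sqrt_of b2
  have r7 : Nat.sqrt (N02 * N12 * (N13 * N03)) = u3 := sqrt_of b3
  unfold dd0
  rw [r1, r2, r3, r4, r5, r6, r7, e2]
  ring

theorem ec_ok {Q A B C t e : ℕ} (hQ : 2 ^ 60 ≤ Q) (hA : A < 4096) (hB : B < 4096) (hC : C < 4096)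
    (ht : t * t = A * B * C)
    (h : e = Nat.mod (Nat.sub (Nat.add 8 (Nat.mul 2 Q)) (Nat.mul 2 (Nat.add (Nat.add A B)
      (Nat.add C t)))) Q) :
    e < Q ∧ (Q : ℤ) ∣ e - (8 - 2 * ((A : ℤ) + B + C + Nat.sqrt (A * B * C))) := by
  have hb := sq_bd ht hA hB hC
  have h1 := e_mod (x := Nat.add (Nat.add A B) (Nat.add C t)) hQ (by
    show A + B + (C + t) ≤ _
    omega)
  rw [← h] at h1
  refine ⟨h1.1, ?_⟩
  have h2 := h1.2
  have e1 : ((Nat.add (Nat.add A B) (Nat.add C t) : ℕ) : ℤ) = (A : ℤ) + B + C + t := by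
    show ((A + B + (C + t) : ℕ) : ℤ) = _
    push_cast
    ring
  rw [e1] at h2
  rw [sqrt_of ht]
  exact h2

end Pool.Agent.Refl.H58
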